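import Pool.Agent.Helper43.AC.Uni

/-! Project AC (MP_e93a6a_ag): covers of the plane branched along four lines are dominated by products
of curves. -/

set_option autoImplicit false

namespace Pool.Agent.Helper43.AC

open IntermediateField Pool.Agent.Helper75.QC

/-- a polynomial of degree at most one -/
theorem exists_lin {Ω : Type} [Field Ω] (f : MvPolynomial (Fin 2) Ω) (hf : f.totalDegree ≤ 1) :
    ∃ c : Fin 3 → Ω, ∀ (E : Type) [Field E] [Algebra Ω E] (x y : E),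
      MvPolynomial.aeval ![x, y] f = algebraMap Ω E (c 0) + algebraMap Ω E (c 1) * x +
        algebraMap Ω E (c 2) * y := by
  classical
  refine ⟨![f.coeff 0, f.coeff (Finsupp.single 0 1), f.coeff (Finsupp.single 1 1)],
    fun E _ _ x y => ?_⟩
  have h1 : f.support ⊆ {0, Finsupp.single 0 1, Finsupp.single 1 1} := by
    intro d hd
    have h2 := MvPolynomial.le_totalDegree hd
    rw [Finsupp.sum_fintype _ _ (by simp), Fin.sum_univ_two] at h2
    have h3 : d 0 + d 1 ≤ 1 := h2.trans hf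
    have h4 : d 0 = 0 ∧ d 1 = 0 ∨ d 0 = 1 ∧ d 1 = 0 ∨ d 0 = 0 ∧ d 1 = 1 := by omega
    rw [Finset.mem_insert, Finset.mem_insert, Finset.mem_singleton]
    rcases h4 with ⟨h5, h6⟩ | ⟨h5, h6⟩ | ⟨h5, h6⟩
    · left
      ext i
      fin_cases i
      · simpa using h5
      · simpa using h6
    · right
      left
      ext i
      fin_cases i
      · simpa using h5
      · simpa using h6
    · right
      right
      ext i
      fin_cases i
      · simpa using h5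
      · simpa using h6
  rw [MvPolynomial.aeval_def, MvPolynomial.eval₂_eq',
    Finset.sum_subset h1 (fun d _ hd => by
      rw [MvPolynomial.notMem_support_iff.1 hd, map_zero, zero_mul])]
  have n1 : (0 : Fin 2 →₀ ℕ) ∉ ({Finsupp.single 0 1, Finsupp.single 1 1} : Finset (Fin 2 →₀ ℕ)) := by
    rw [Finset.mem_insert, Finset.mem_singleton, not_or]
    constructor
    · intro h
      have := DFunLike.congr_fun h 0
      simp at this
    · intro h
      have := DFunLike.congr_fun h 1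
      simp at this
  have n2 : (Finsupp.single 0 1 : Fin 2 →₀ ℕ) ∉ ({Finsupp.single 1 1} : Finset (Fin 2 →₀ ℕ)) := by
    rw [Finset.mem_singleton]
    intro h
    have := DFunLike.congr_fun h 0
    simp at this
  rw [Finset.sum_insert n1, Finset.sum_insert n2, Finset.sum_singleton]
  simp [Fin.prod_univ_two, add_assoc]

/-- roots of products -/
theorem mem_root {Ω E : Type} [Field Ω] [Field E] [Algebra Ω E] [IsAlgClosed E] (a b : E) {n : ℕ}
    (hn : 0 < n) {z p q : E} (hp : p ∈ AF Ω ({a} : Set E)) (hq : q ∈ AF Ω ({b} : Set E))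
    (hz : z ^ n = p * q) : z ∈ adjoin Ω (Acl Ω {a} ∪ Acl Ω {b}) := by
  have m1 : ∀ t ∈ AF Ω ({a} : Set E), t ∈ adjoin Ω (Acl Ω {a} ∪ Acl Ω {b}) := fun t ht =>
    subset_adjoin _ _ (Or.inl (mem_AF.1 ht))
  have m2 : ∀ t ∈ AF Ω ({b} : Set E), t ∈ adjoin Ω (Acl Ω {a} ∪ Acl Ω {b}) := fun t ht =>
    subset_adjoin _ _ (Or.inr (mem_AF.1 ht))
  rcases eq_or_ne z 0 with h0 | h0
  · rw [h0]
    exact zero_mem _
  have hpq : p * q ≠ 0 := by
    rw [← hz]
    exact pow_ne_zero _ h0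
  obtain ⟨p', hp'⟩ := IsAlgClosed.exists_pow_nat_eq p hn
  obtain ⟨q', hq'⟩ := IsAlgClosed.exists_pow_nat_eq q hn
  have hp0 : p' ≠ 0 := by
    rintro rfl
    rw [zero_pow hn.ne'] at hp'
    exact hpq (by rw [← hp', zero_mul])
  have hq0 : q' ≠ 0 := by
    rintro rfl
    rw [zero_pow hn.ne'] at hq'
    exact hpq (by rw [← hq', mul_zero])
  have h1 : (z / (p' * q')) ^ n = 1 := by
    rw [div_pow, hz, mul_pow, hp', hq', div_self hpq]
  have h2 : z / (p' * q') ∈ AF Ω ({a} : Set E) := AF_root hn (by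
    rw [h1]
    exact one_mem _)
  have h3 : z = z / (p' * q') * (p' * q') := by
    rw [div_mul_cancel₀ _ (mul_ne_zero hp0 hq0)]
  rw [h3]
  exact mul_mem (m1 _ h2) (mul_mem (m1 _ (AF_root hn (by rwa [hp'])))
    (m2 _ (AF_root hn (by rwa [hq']))))

/-- the case in which two of the lines are not parallel -/
theorem lines_aux {Ω E : Type} [Field Ω] [Field E] [Algebra Ω E] [IsAlgClosed E] (x y w : E)
    {n : ℕ} (hn : 0 < n) (hw0 : w ≠ 0) (f g h : Fin 3 → Ω) (a b c : ℕ)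
    (hfg : f 1 * g 2 - f 2 * g 1 ≠ 0) (F G H : E)
    (hF : F = algebraMap Ω E (f 0) + algebraMap Ω E (f 1) * x + algebraMap Ω E (f 2) * y)
    (hG : G = algebraMap Ω E (g 0) + algebraMap Ω E (g 1) * x + algebraMap Ω E (g 2) * y)
    (hH : H = algebraMap Ω E (h 0) + algebraMap Ω E (h 1) * x + algebraMap Ω E (h 2) * y)
    (hw : w ^ n = F ^ a * G ^ b * H ^ c) :
    ∃ r s : E, x ∈ adjoin Ω (Acl Ω {r} ∪ Acl Ω {s}) ∧ y ∈ adjoin Ω (Acl Ω {r} ∪ Acl Ω {s}) ∧
      w ∈ adjoin Ω (Acl Ω {r} ∪ Acl Ω {s}) := by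
  obtain ⟨Δ, hΔ⟩ : ∃ Δ, Δ = f 1 * g 2 - f 2 * g 1 := ⟨_, rfl⟩
  rw [← hΔ] at hfg
  have hΔE : algebraMap Ω E Δ = algebraMap Ω E (f 1) * algebraMap Ω E (g 2) -
      algebraMap Ω E (f 2) * algebraMap Ω E (g 1) := by
    rw [hΔ, map_sub, map_mul, map_mul]
  have hδ : algebraMap Ω E Δ ≠ 0 := by
    rw [Ne, FaithfulSMul.algebraMap_eq_zero_iff]
    exact hfg
  have hx : x = (algebraMap Ω E (g 2) * (F - algebraMap Ω E (f 0)) -
      algebraMap Ω E (f 2) * (G - algebraMap Ω E (g 0))) / algebraMap Ω E Δ := by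
    rw [eq_div_iff hδ, hΔE, hF, hG]
    ring
  have hy : y = (algebraMap Ω E (f 1) * (G - algebraMap Ω E (g 0)) -
      algebraMap Ω E (g 1) * (F - algebraMap Ω E (f 0))) / algebraMap Ω E Δ := by
    rw [eq_div_iff hδ, hΔE, hF, hG]
    ring
  have hxy : ∀ A : IntermediateField Ω E, F ∈ A → G ∈ A → x ∈ A ∧ y ∈ A := by
    intro A h1 h2
    have k : ∀ t : Ω, algebraMap Ω E t ∈ A := A.algebraMap_mem
    constructor
    · rw [hx]
      exact div_mem (sub_mem (mul_mem (k _) (sub_mem h1 (k _)))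
        (mul_mem (k _) (sub_mem h2 (k _)))) (k _)
    · rw [hy]
      exact div_mem (sub_mem (mul_mem (k _) (sub_mem h2 (k _)))
        (mul_mem (k _) (sub_mem h1 (k _)))) (k _)
  obtain ⟨A, hA⟩ : ∃ A, A = (h 1 * g 2 - h 2 * g 1) / Δ := ⟨_, rfl⟩
  obtain ⟨B, hB⟩ : ∃ B, B = (h 2 * f 1 - h 1 * f 2) / Δ := ⟨_, rfl⟩
  obtain ⟨D, hD⟩ : ∃ D, D = h 0 - A * f 0 - B * g 0 := ⟨_, rfl⟩
  have h1 : A * f 1 + B * g 1 = h 1 := by
    rw [hA, hB]
    field_simp
    rw [hΔ]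
    ring
  have h2 : A * f 2 + B * g 2 = h 2 := by
    rw [hA, hB]
    field_simp
    rw [hΔ]
    ring
  have hH' : H = algebraMap Ω E D + algebraMap Ω E A * F + algebraMap Ω E B * G := by
    rw [hH, ← h1, ← h2, hD, hF, hG]
    simp only [map_sub, map_add, map_mul]
    ring
  have l1 : ∀ r s : E, r ∈ adjoin Ω (Acl Ω {r} ∪ Acl Ω {s}) := fun r s =>
    subset_adjoin _ _ (Or.inl (mem_AF.1 (subset_AF _ rfl)))
  have l2 : ∀ r s : E, s ∈ adjoin Ω (Acl Ω {r} ∪ Acl Ω {s}) := fun r s =>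
    subset_adjoin _ _ (Or.inr (mem_AF.1 (subset_AF _ rfl)))
  have l3 : ∀ r : E, r ∈ AF Ω ({r} : Set E) := fun r => subset_AF _ rfl
  by_cases hAB : algebraMap Ω E A * F + algebraMap Ω E B * G = 0
  · have h3 : H = algebraMap Ω E D := by
      rw [hH', add_assoc, hAB, add_zero]
    refine ⟨F, G, (hxy _ (l1 _ _) (l2 _ _)).1, (hxy _ (l1 _ _) (l2 _ _)).2, ?_⟩
    refine mem_root F G hn (p := F ^ a * H ^ c) (q := G ^ b) ?_ (pow_mem (l3 _) _) ?_
    · rw [h3]
      exact mul_mem (pow_mem (l3 _) _) (pow_mem ((AF Ω ({F} : Set E)).algebraMap_mem D) _)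
    · rw [hw]
      ring
  · by_cases hG0 : G = 0
    · have hb : b = 0 := by
        by_contra hb
        rw [hG0, zero_pow hb, mul_zero, zero_mul] at hw
        exact pow_ne_zero _ hw0 hw
      have h3 : G ∈ adjoin Ω (Acl Ω {F} ∪ Acl Ω {H}) := by
        rw [hG0]
        exact zero_mem _
      refine ⟨F, H, (hxy _ (l1 _ _) h3).1, (hxy _ (l1 _ _) h3).2, ?_⟩
      refine mem_root F H hn (p := F ^ a) (q := H ^ c) (pow_mem (l3 _) _) (pow_mem (l3 _) _) ?_
      rw [hw, hb, pow_zero, mul_one]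
    · obtain ⟨ρ, hρ⟩ : ∃ ρ, ρ = F / G := ⟨_, rfl⟩
      have hFρ : F = ρ * G := by
        rw [hρ, div_mul_cancel₀ _ hG0]
      have h3 : algebraMap Ω E A * F + algebraMap Ω E B * G =
          (algebraMap Ω E A * ρ + algebraMap Ω E B) * G := by
        rw [hFρ]
        ring
      have h4 : algebraMap Ω E A * ρ + algebraMap Ω E B ≠ 0 := by
        intro h4
        rw [h3, h4, zero_mul] at hAB
        exact hAB rfl
      have h5 : G = (H - algebraMap Ω E D) / (algebraMap Ω E A * ρ + algebraMap Ω E B) := by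
        rw [eq_div_iff h4, hH', add_assoc, h3]
        ring
      have m1 : algebraMap Ω E A * ρ + algebraMap Ω E B ∈ AF Ω ({ρ} : Set E) :=
        add_mem (mul_mem (_root_.algebraMap_mem _ _) (l3 _)) (_root_.algebraMap_mem _ _)
      have m2 : H - algebraMap Ω E D ∈ AF Ω ({H} : Set E) := sub_mem (l3 _) (_root_.algebraMap_mem _ _)
      have m3 : G ∈ adjoin Ω (Acl Ω {ρ} ∪ Acl Ω {H}) := by
        rw [h5]
        exact div_mem (subset_adjoin _ _ (Or.inr (mem_AF.1 m2)))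
          (subset_adjoin _ _ (Or.inl (mem_AF.1 m1)))
      have m4 : F ∈ adjoin Ω (Acl Ω {ρ} ∪ Acl Ω {H}) := by
        rw [hFρ]
        exact mul_mem (l1 _ _) m3
      refine ⟨ρ, H, (hxy _ m4 m3).1, (hxy _ m4 m3).2, ?_⟩
      refine mem_root ρ H hn
        (p := ρ ^ a / (algebraMap Ω E A * ρ + algebraMap Ω E B) ^ (a + b))
        (q := (H - algebraMap Ω E D) ^ (a + b) * H ^ c) (div_mem (pow_mem (l3 _) _)
          (pow_mem m1 _)) (mul_mem (pow_mem m2 _) (pow_mem (l3 _) _)) ?_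
      have h6 : F ^ a * G ^ b = ρ ^ a * G ^ (a + b) := by
        rw [hFρ]
        ring
      rw [hw, h6]
      conv_lhs => rw [h5]
      rw [div_pow]
      ring

/-- parallel vectors -/
theorem exists_smul {Ω : Type} [Field Ω] (u v : Fin 3 → Ω) (hv : v 1 ≠ 0 ∨ v 2 ≠ 0)
    (h : v 1 * u 2 - v 2 * u 1 = 0) : ∃ t : Ω, u 1 = t * v 1 ∧ u 2 = t * v 2 := by
  rcases hv with hv | hv
  · refine ⟨u 1 / v 1, ?_, ?_⟩
    · field_simp
    · field_simp
      linear_combination h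
  · refine ⟨u 2 / v 2, ?_, ?_⟩
    · field_simp
      linear_combination -h
    · field_simp

/-- the case of parallel lines -/
theorem lines_par {Ω E : Type} [Field Ω] [Field E] [Algebra Ω E] [IsAlgClosed E] (x y w : E)
    {n : ℕ} (hn : 0 < n) (v f g h : Fin 3 → Ω) (a b c : ℕ) (hv : v 1 ≠ 0 ∨ v 2 ≠ 0)
    (hf : ∃ t : Ω, f 1 = t * v 1 ∧ f 2 = t * v 2) (hg : ∃ t : Ω, g 1 = t * v 1 ∧ g 2 = t * v 2)
    (hh : ∃ t : Ω, h 1 = t * v 1 ∧ h 2 = t * v 2) (F G H : E)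
    (hF : F = algebraMap Ω E (f 0) + algebraMap Ω E (f 1) * x + algebraMap Ω E (f 2) * y)
    (hG : G = algebraMap Ω E (g 0) + algebraMap Ω E (g 1) * x + algebraMap Ω E (g 2) * y)
    (hH : H = algebraMap Ω E (h 0) + algebraMap Ω E (h 1) * x + algebraMap Ω E (h 2) * y)
    (hw : w ^ n = F ^ a * G ^ b * H ^ c) :
    ∃ r s : E, x ∈ adjoin Ω (Acl Ω {r} ∪ Acl Ω {s}) ∧ y ∈ adjoin Ω (Acl Ω {r} ∪ Acl Ω {s}) ∧
      w ∈ adjoin Ω (Acl Ω {r} ∪ Acl Ω {s}) := by
  obtain ⟨L, hL⟩ : ∃ L, L = algebraMap Ω E (v 1) * x + algebraMap Ω E (v 2) * y := ⟨_, rfl⟩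
  have l1 : ∀ r s : E, r ∈ adjoin Ω (Acl Ω {r} ∪ Acl Ω {s}) := fun r s =>
    subset_adjoin _ _ (Or.inl (mem_AF.1 (subset_AF _ rfl)))
  have l2 : ∀ r s : E, s ∈ adjoin Ω (Acl Ω {r} ∪ Acl Ω {s}) := fun r s =>
    subset_adjoin _ _ (Or.inr (mem_AF.1 (subset_AF _ rfl)))
  have l3 : L ∈ AF Ω ({L} : Set E) := subset_AF _ rfl
  have key : ∀ u : Fin 3 → Ω, (∃ t : Ω, u 1 = t * v 1 ∧ u 2 = t * v 2) →
      algebraMap Ω E (u 0) + algebraMap Ω E (u 1) * x + algebraMap Ω E (u 2) * y ∈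
        AF Ω ({L} : Set E) := by
    rintro u ⟨t, h1, h2⟩
    have h3 : algebraMap Ω E (u 0) + algebraMap Ω E (u 1) * x + algebraMap Ω E (u 2) * y =
        algebraMap Ω E (u 0) + algebraMap Ω E t * L := by
      rw [h1, h2, hL, map_mul, map_mul]
      ring
    rw [h3]
    exact add_mem (_root_.algebraMap_mem _ _) (mul_mem (_root_.algebraMap_mem _ _) l3)
  have hwL : ∀ s : E, w ∈ adjoin Ω (Acl Ω {L} ∪ Acl Ω {s}) := fun s =>
    mem_root L s hn (p := F ^ a * G ^ b * H ^ c) (q := 1)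
      (mul_mem (mul_mem (pow_mem (hF ▸ key f hf) _) (pow_mem (hG ▸ key g hg) _))
        (pow_mem (hH ▸ key h hh) _)) (one_mem _) (by rw [mul_one, hw])
  rcases hv with hv | hv
  · have hvE : algebraMap Ω E (v 1) ≠ 0 := by
      rw [Ne, FaithfulSMul.algebraMap_eq_zero_iff]
      exact hv
    refine ⟨L, y, ?_, l2 _ _, hwL y⟩
    have h1 : x = (L - algebraMap Ω E (v 2) * y) / algebraMap Ω E (v 1) := by
      rw [eq_div_iff hvE, hL]
      ring
    have h2 := div_mem (sub_mem (l1 L y) (mul_mem (_root_.algebraMap_mem _ (v 2)) (l2 L y)))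
      (_root_.algebraMap_mem (adjoin Ω (Acl Ω {L} ∪ Acl Ω {y})) (v 1))
    rwa [← h1] at h2
  · have hvE : algebraMap Ω E (v 2) ≠ 0 := by
      rw [Ne, FaithfulSMul.algebraMap_eq_zero_iff]
      exact hv
    refine ⟨L, x, l2 _ _, ?_, hwL x⟩
    have h1 : y = (L - algebraMap Ω E (v 1) * x) / algebraMap Ω E (v 2) := by
      rw [eq_div_iff hvE, hL]
      ring
    have h2 := div_mem (sub_mem (l1 L x) (mul_mem (_root_.algebraMap_mem _ (v 1)) (l2 L x)))
      (_root_.algebraMap_mem (adjoin Ω (Acl Ω {L} ∪ Acl Ω {x})) (v 2))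
    rwa [← h1] at h2

/-- Covers of the plane branched along four lines. -/
theorem four_lines {Ω K : Type} [Field Ω] [Field K] [Algebra Ω K] (x y w : K)
    (hK : adjoin Ω {x, y, w} = ⊤) {n : ℕ} (hn : 0 < n) (f g h : MvPolynomial (Fin 2) Ω)
    (a b c : ℕ) (hf : f.totalDegree ≤ 1) (hg : g.totalDegree ≤ 1) (hh : h.totalDegree ≤ 1)
    (hw : w ^ n = MvPolynomial.aeval ![x, y] f ^ a * MvPolynomial.aeval ![x, y] g ^ b *
      MvPolynomial.aeval ![x, y] h ^ c) : IsProduct Ω K := by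
  obtain ⟨f', hf'⟩ := exists_lin f hf
  obtain ⟨g', hg'⟩ := exists_lin g hg
  obtain ⟨h', hh'⟩ := exists_lin h hh
  let E := AlgebraicClosure K
  let ι : K →ₐ[Ω] E := IsScalarTower.toAlgHom Ω K E
  have key : ∃ r s : E, ι x ∈ adjoin Ω (Acl Ω {r} ∪ Acl Ω {s}) ∧
      ι y ∈ adjoin Ω (Acl Ω {r} ∪ Acl Ω {s}) ∧ ι w ∈ adjoin Ω (Acl Ω {r} ∪ Acl Ω {s}) := by
    obtain ⟨X, hX⟩ : ∃ X, X = ι x := ⟨_, rfl⟩
    obtain ⟨Y, hY⟩ : ∃ Y, Y = ι y := ⟨_, rfl⟩
    obtain ⟨W, hW⟩ : ∃ W, W = ι w := ⟨_, rfl⟩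
    have ev : ∀ q : MvPolynomial (Fin 2) Ω, ι (MvPolynomial.aeval ![x, y] q) =
        MvPolynomial.aeval ![X, Y] q := by
      intro q
      have h1 : ι.comp (MvPolynomial.aeval ![x, y]) = MvPolynomial.aeval ![X, Y] := by
        apply MvPolynomial.algHom_ext
        intro i
        rw [AlgHom.comp_apply, MvPolynomial.aeval_X, MvPolynomial.aeval_X]
        fin_cases i
        · exact hX.symm
        · exact hY.symm
      rw [← h1]
      rfl
    obtain ⟨F, hF⟩ : ∃ F, F = ι (MvPolynomial.aeval ![x, y] f) := ⟨_, rfl⟩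
    obtain ⟨G, hG⟩ : ∃ G, G = ι (MvPolynomial.aeval ![x, y] g) := ⟨_, rfl⟩
    obtain ⟨H, hH⟩ : ∃ H, H = ι (MvPolynomial.aeval ![x, y] h) := ⟨_, rfl⟩
    have hWn : W ^ n = F ^ a * G ^ b * H ^ c := by
      rw [hW, ← map_pow, hw, map_mul, map_mul, map_pow, map_pow, map_pow, hF, hG, hH]
    rw [← hX, ← hY, ← hW]
    rw [ev, hf'] at hF
    rw [ev, hg'] at hG
    rw [ev, hh'] at hH
    by_cases hW0 : W = 0
    · refine ⟨X, Y, subset_adjoin _ _ (Or.inl (mem_AF.1 (subset_AF _ rfl))),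
        subset_adjoin _ _ (Or.inr (mem_AF.1 (subset_AF _ rfl))), ?_⟩
      rw [hW0]
      exact zero_mem _
    by_cases h1 : f' 1 * g' 2 - f' 2 * g' 1 = 0
    · by_cases h2 : f' 1 * h' 2 - f' 2 * h' 1 = 0
      · by_cases h3 : g' 1 * h' 2 - g' 2 * h' 1 = 0
        · by_cases h4 : f' 1 ≠ 0 ∨ f' 2 ≠ 0
          · exact lines_par X Y W hn f' f' g' h' a b c h4 ⟨1, by ring, by ring⟩
              (exists_smul g' f' h4 h1) (exists_smul h' f' h4 h2) F G H hF hG hH hWn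
          · have h4' : f' 1 = 0 ∧ f' 2 = 0 := by
              rw [not_or, not_not, not_not] at h4
              exact h4
            by_cases h5 : g' 1 ≠ 0 ∨ g' 2 ≠ 0
            · exact lines_par X Y W hn g' f' g' h' a b c h5 ⟨0, by simp [h4'.1], by simp [h4'.2]⟩
                ⟨1, by ring, by ring⟩ (exists_smul h' g' h5 h3) F G H hF hG hH hWn
            · have h5' : g' 1 = 0 ∧ g' 2 = 0 := by
                rw [not_or, not_not, not_not] at h5
                exact h5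
              by_cases h6 : h' 1 ≠ 0 ∨ h' 2 ≠ 0
              · exact lines_par X Y W hn h' f' g' h' a b c h6
                  ⟨0, by simp [h4'.1], by simp [h4'.2]⟩ ⟨0, by simp [h5'.1], by simp [h5'.2]⟩
                  ⟨1, by ring, by ring⟩ F G H hF hG hH hWn
              · have h6' : h' 1 = 0 ∧ h' 2 = 0 := by
                  rw [not_or, not_not, not_not] at h6
                  exact h6
                exact lines_par X Y W hn ![0, 1, 0] f' g' h' a b c (Or.inl (by simp))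
                  ⟨0, by simp [h4'.1], by simp [h4'.2]⟩ ⟨0, by simp [h5'.1], by simp [h5'.2]⟩
                  ⟨0, by simp [h6'.1], by simp [h6'.2]⟩ F G H hF hG hH hWn
        · exact lines_aux X Y W hn hW0 g' h' f' b c a h3 G H F hG hH hF (by rw [hWn]; ring)
      · exact lines_aux X Y W hn hW0 f' h' g' a c b h2 F H G hF hH hG (by rw [hWn]; ring)
    · exact lines_aux X Y W hn hW0 f' g' h' a b c h1 F G H hF hG hH hWn
  obtain ⟨r, s, h1, h2, h3⟩ := key
  refine ⟨E, inferInstance, inferInstance, ι, r, s, fun k => ?_⟩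
  have h4 : adjoin Ω {x, y, w} ≤ (adjoin Ω (Acl Ω {r} ∪ Acl Ω {s})).comap ι := by
    rw [adjoin_le_iff]
    rintro t (rfl | rfl | rfl)
    · exact h1
    · exact h2
    · exact h3
  rw [hK] at h4
  exact h4 (mem_top (x := k))

end Pool.Agent.Helper43.AC
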