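import Pool.Agent.Helper43.AC.Table
import Pool.Agent.Helper43.AC.Lines
import Pool.Agent.Helper35.WC.ListedM

/-! Project AC (MP_e93a6a_ag): finite abelian extensions `K / R`, where for the cyclic subextensions
`M / R` there is a plane `Ω(x, y)` between `R` and `M`; the proof follows
`Pool.Agent.Helper35.WC.noTate_rowsM`, `weightedM`, `tableM`. -/

set_option autoImplicit false

namespace Pool.Agent.Helper43.AC

open IntermediateField Pool.Agent.Helper75.QC Pool.Agent.Helper35.WC Pool.Agent.Helper75.WC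

variable {Ω : Type} [Field Ω] {P : (K : Type) → [Field K] → [Algebra Ω K] → Prop}

/-- Finite abelian extensions: the cyclic quotients by induction on the degree. -/
theorem mem_rowsM (hP : IsMotivic Ω P) {K : Type} [Field K] [Algebra Ω K]
    (R : IntermediateField Ω K) [FiniteDimensional R K] [IsGalois R K]
    (hab : ∀ g h : K ≃ₐ[R] K, g * h = h * g)
    (H : ∀ M : IntermediateField R K, IsCyclic (M ≃ₐ[R] M) → P M ∨ RowDataM Ω R M) : P K := by
  classical
  refine hP.abelian K R ⟨inferInstance, inferInstance, hab⟩ fun M hc => ?_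
  change IsCyclic (M ≃ₐ[R] M) at hc
  obtain ⟨k, hk⟩ : ∃ k, k = Module.finrank R M := ⟨_, rfl⟩
  induction k using Nat.strong_induction_on generalizing M with
  | _ k IH =>
  rcases H M hc with h | ⟨n, α, β, x, y, w, hn0, hnΩ, hαβ, hα, hβ, hαβ', hRle, hK, hdeg, hw0,
    hwn, huni⟩
  · exact h
  have hGM : IsGalois R M := isGalois_of_comm hab M
  refine hP.twist M x y w n α β ⟨hnΩ, hw0, hwn, hK, hdeg⟩ hαβ (fun d hdn hd => ?_) huni
  obtain ⟨m, hm⟩ := hdn
  have hne : d ≠ n := by
    rintro rfl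
    rcases hd with h | h | h
    · exact hα h
    · exact hβ h
    · exact hαβ' h
  have hd0 : 0 < d := Nat.pos_of_ne_zero (by
    rintro rfl
    rw [zero_mul] at hm
    omega)
  have hm0 : 0 < m := Nat.pos_of_ne_zero (by
    rintro rfl
    rw [mul_zero] at hm
    omega)
  have hdlt : d < n := lt_of_le_of_ne (by
    rw [hm]
    exact Nat.le_mul_of_pos_right _ hm0) hne
  have hdiv : n / d = m := by
    rw [hm, Nat.mul_div_cancel_left _ hd0]
  rw [hdiv]
  obtain ⟨F, hF⟩ : ∃ F : IntermediateField Ω M, F = adjoin Ω {x, y} := ⟨_, rfl⟩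
  obtain ⟨N, hN⟩ : ∃ N : IntermediateField Ω M, N = adjoin Ω {x, y, w ^ m} := ⟨_, rfl⟩
  have hFN : F ≤ N := by
    rw [hF, hN]
    exact adjoin.mono Ω _ _ (by
      rintro a (rfl | rfl)
      · simp
      · simp)
  -- the field `N` as an extension of `R`
  let M' : IntermediateField R M :=
    { N.toSubfield with
      algebraMap_mem' := fun r => hFN (hF ▸ hRle r) }
  have hcM' : IsCyclic (M' ≃ₐ[R] M') := cyclic_sub hc M'
  let e : M' ≃ₐ[R] lift M' := liftAlgEquiv M'
  have hcL : IsCyclic (lift M' ≃ₐ[R] lift M') :=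
    (MulEquiv.isCyclic (AlgEquiv.autCongr e)).1 hcM'
  -- `M'` is a proper subfield
  have hlt : M' ≠ ⊤ := by
    intro htop
    have hNtop : N = ⊤ := by
      rw [eq_top_iff]
      intro a _
      have h1 : a ∈ M' := by
        rw [htop]
        exact mem_top
      exact h1
    -- the degree of `N` over `F` is at most `d`
    have hfinF : FiniteDimensional F M := Module.finite_of_finrank_pos (by
      rw [hF, hdeg]
      exact hn0)
    obtain ⟨Q, hQ⟩ : ∃ Q : IntermediateField F M, Q = adjoin F {w ^ m} := ⟨_, rfl⟩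
    have hQtop : Q = ⊤ := by
      rw [eq_top_iff]
      intro a _
      have h1 : N ≤ Q.restrictScalars Ω := by
        rw [hN, adjoin_le_iff]
        have hx : x ∈ F := by
          rw [hF]
          exact subset_adjoin _ _ (by simp)
        have hy : y ∈ F := by
          rw [hF]
          exact subset_adjoin _ _ (by simp)
        rintro b (rfl | rfl | rfl)
        · exact Q.algebraMap_mem (⟨_, hx⟩ : F)
        · exact Q.algebraMap_mem (⟨_, hy⟩ : F)
        · show w ^ m ∈ Q
          rw [hQ]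
          exact subset_adjoin _ _ rfl
      exact h1 (by
        rw [hNtop]
        exact mem_top)
    have h2 : Module.finrank F Q ≤ d := by
      rw [hQ, adjoin.finrank (Algebra.IsIntegral.isIntegral _)]
      have hwF : w ^ n ∈ F := by
        rw [hF]
        exact hwn
      have h3 : minpoly F (w ^ m) ∣ Polynomial.X ^ d - Polynomial.C (⟨w ^ n, hwF⟩ : F) := by
        refine minpoly.dvd F _ ?_
        rw [map_sub, map_pow, Polynomial.aeval_X, Polynomial.aeval_C]
        show (w ^ m) ^ d - w ^ n = 0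
        rw [← pow_mul, mul_comm m, ← hm, sub_self]
      have h4 := Polynomial.natDegree_le_of_dvd h3 (Polynomial.X_pow_sub_C_ne_zero hd0 _)
      rwa [Polynomial.natDegree_X_pow_sub_C] at h4
    have h5 : Module.finrank F Q = n := by
      rw [hQtop, finrank_top', ← hdeg, hF]
    omega
  have hfin : Module.finrank R (lift M') < k := by
    rw [← e.toLinearEquiv.finrank_eq, hk]
    have h1 : M' < ⊤ := lt_top_iff_ne_top.2 hlt
    have h2 : Module.finrank R M' < Module.finrank R (⊤ : IntermediateField R M) := by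
      by_contra h3
      rw [not_lt] at h3
      exact h1.ne (IntermediateField.eq_of_le_of_finrank_le h1.le h3)
    rwa [finrank_top'] at h2
  have h1 := IH _ hfin (lift M') hcL rfl
  have hmem1 : ∀ a ∈ (adjoin Ω {x, y, w ^ m} : IntermediateField Ω M), a ∈ M' := by
    intro a ha
    show a ∈ N
    rw [hN]
    exact ha
  let ι : (adjoin Ω {x, y, w ^ m} : IntermediateField Ω M) →ₐ[Ω] lift M' :=
    { toFun := fun a => e ⟨a.1, hmem1 a.1 a.2⟩
      map_one' := rfl
      map_mul' := fun _ _ => rfl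
      map_zero' := rfl
      map_add' := fun _ _ => rfl
      commutes' := fun _ => rfl }
  exact hP.sub (lift M') _ ι h1

variable [IsAlgClosed Ω]

/-- **The list with weights.** -/
theorem weightedM (hP : IsMotivic Ω P) {R M : Type} [Field R] [Field M] [Algebra Ω R]
    [Algebra Ω M] [Algebra R M] [IsScalarTower Ω R M] [FiniteDimensional R M] [IsGalois R M]
    (x y w : M) (hR : ∀ r : R, algebraMap R M r ∈ (adjoin Ω {x, y} : IntermediateField Ω M))
    (hM : adjoin Ω {x, y, w} = ⊤)
    (hrow : IsWeighted Ω (Module.finrank (adjoin Ω {x, y} : IntermediateField Ω M) M) x y w) :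
    P M ∨ RowDataM Ω R M := by
  have hwn := Pool.Agent.Helper15.WC.weighted_mem hrow
  obtain ⟨hn0, hcast, hw0⟩ := Pool.Agent.Helper15.WC.cyc_dataM x y w hR hM rfl hwn
  obtain ⟨hsmall, hlarge⟩ := Pool.Agent.Helper15.WC.row_uniM x y w hM hcast hw0 hrow
  rcases Nat.lt_or_ge 2 (Module.finrank (adjoin Ω {x, y} : IntermediateField Ω M) M) with hn2 | hn2
  · right
    obtain ⟨α, β, hαβ, hα, hβ, hαβ', huni⟩ := hlarge hn2
    refine ⟨_, α, β, x, y, w, hn0, hcast, hαβ, hα, hβ, hαβ', hR, hM, rfl,
      hw0 (by omega), hwn, fun N _ _ g v s hv hs => huni N g v s ?_ ?_ hs⟩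
    · rintro rfl
      exact hv isAlgebraic_zero
    · rintro rfl
      exact hv (isAlgebraic_algebraMap (1 : g.fieldRange))
  · exact Or.inl (hP.uniruled M (hsmall hn2))

/-- **The table.** -/
theorem tableM (hP : IsMotivic Ω P) {R M : Type} [Field R] [Field M] [Algebra Ω R]
    [Algebra Ω M] [Algebra R M] [IsScalarTower Ω R M] [FiniteDimensional R M] [IsGalois R M]
    (x y w : M) (hR : ∀ r : R, algebraMap R M r ∈ (adjoin Ω {x, y} : IntermediateField Ω M))
    (hM : adjoin Ω {x, y, w} = ⊤) {n : ℕ}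
    (hn : Module.finrank (adjoin Ω {x, y} : IntermediateField Ω M) M = n)
    (h : ∃ (a b c : ℕ) (f g h : MvPolynomial (Fin 2) Ω),
      (f.totalDegree ≤ 3 ∧ g.totalDegree ≤ 2 ∧ h = 1 ∧ n ∣ 3 * a + 2 * b ∨
        f.totalDegree ≤ 2 ∧ g.totalDegree ≤ 2 ∧ h.totalDegree ≤ 2 ∧ n ∣ a + b + c) ∧
      w ^ n = MvPolynomial.aeval ![x, y] f ^ a *
        MvPolynomial.aeval ![x, y] g ^ b * MvPolynomial.aeval ![x, y] h ^ c) : P M := by
  obtain ⟨a, b, c, f, g, k, H, hwn⟩ := h
  have hmem : w ^ n ∈ (adjoin Ω {x, y} : IntermediateField Ω M) := by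
    have m1 : x ∈ (adjoin Ω {x, y} : IntermediateField Ω M) := subset_adjoin _ _ (by simp)
    have m2 : y ∈ (adjoin Ω {x, y} : IntermediateField Ω M) := subset_adjoin _ _ (by simp)
    rw [hwn]
    exact mul_mem (mul_mem (pow_mem (mem_valr75 f _ _ _ m1 m2) _)
      (pow_mem (mem_valr75 g _ _ _ m1 m2) _)) (pow_mem (mem_valr75 k _ _ _ m1 m2) _)
  obtain ⟨hn0, hcast, -⟩ := Pool.Agent.Helper15.WC.cyc_dataM x y w hR hM hn hmem
  exact mem_table hP hn0 hcast x y w hM hn f g k a b c H hwn

end Pool.Agent.Helper43.AC
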