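import Pool.Agent.Helper75.WC.CurveLin
import Pool.Agent.Helper43.AC.RowsM

/-! Project AC (MP_e93a6a_ag): branch curves of degree at most four, or of degree five with at most one
line; the reduction to the list is in `Pool.Agent.Helper75.WC`. -/

set_option autoImplicit false

namespace Pool.Agent.Helper43.AC

open IntermediateField MvPolynomial Pool.Agent.Helper75.WC Pool.Agent.Helper75.QC

variable {Ω : Type} [Field Ω] [IsAlgClosed Ω] {P : (K : Type) → [Field K] → [Algebra Ω K] → Prop}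

/-- the types without a condition on `n` -/
theorem lst_or_lin {R M : Type} [Field R] [Field M] [Algebra Ω R] [Algebra Ω M]
    [Algebra R M] [IsScalarTower Ω R M] [FiniteDimensional R M] {n : ℕ}
    (hn : Module.finrank R M = n) {x y : R}
    {w : M} (hR : adjoin Ω {x, y} = ⊤)
    (hw : adjoin R {w} = ⊤) {r : ℕ} (d e : Fin r → ℕ) (f : Fin r → MvPolynomial (Fin 2) Ω)
    (hd : ∀ i, (f i).totalDegree ≤ d i) (h5 : ∑ i, d i ≤ 5) (hdvd : n ∣ ∑ i, d i * e i)
    (hc : ∑ i, d i ≤ 4 ∨ (Finset.univ.filter fun i => d i = 1).card ≤ 1)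
    (heq : w ^ n = ∏ i, aeval ![algebraMap R M x, algebraMap R M y] (f i) ^ e i) :
    Lst Ω R M n ∨ Lin Ω R M n := by
  have hn0 : 0 < n := by
    rw [← hn]
    exact Module.finrank_pos
  rcases curve_ne hn hR hw d e f hd heq with h | ⟨f', hd', hne, heq'⟩
  · exact Or.inl h
  obtain ⟨H⟩ := rep_of_curve hn0 hR hw d e f' hd' hne heq'
  refine H.freeLin hn0 hn (typ_dvd hn0 d e hdvd) ((typ_range_sum d e hn0).trans h5) ?_
  rcases hc with hc | hc
  · exact Or.inl ((typ_range_sum d e hn0).trans hc)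
  · exact Or.inr ((typ_lines d e).trans hc)

/-- the list with `x`, `y`, `w` in `M` -/
theorem listedM (hP : IsMotivic Ω P) {R M : Type} [Field R] [Field M] [Algebra Ω R]
    [Algebra Ω M] [Algebra R M] [IsScalarTower Ω R M] [FiniteDimensional R M] [IsGalois R M]
    (h : LstM Ω R M) : P M ∨ Pool.Agent.Helper35.WC.RowDataM Ω R M := by
  obtain ⟨x, y, w, hR, hM, h | h⟩ := h
  · exact weightedM hP x y w hR hM h
  · exact Or.inl (tableM hP x y w hR hM rfl h)

/-- four lines -/
theorem lin_mem (hP : IsMotivic Ω P) {R M : Type} [Field R] [Field M] [Algebra Ω R]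
    [Algebra Ω M] [Algebra R M] [IsScalarTower Ω R M] [FiniteDimensional R M] [IsGalois R M]
    (h : Lin Ω R M (Module.finrank R M)) : P M := by
  obtain ⟨x, y, w, a, b, c, f, g, k, hxy, hw, hf, hg, hk, -, -, -, heq⟩ := h
  have m1 : algebraMap R M x ∈ adjoin Ω {algebraMap R M x, algebraMap R M y} :=
    subset_adjoin _ _ (by simp)
  have m2 : algebraMap R M y ∈ adjoin Ω {algebraMap R M x, algebraMap R M y} :=
    subset_adjoin _ _ (by simp)
  have hmem : w ^ Module.finrank R M ∈ adjoin Ω {algebraMap R M x, algebraMap R M y} := by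
    rw [heq]
    exact mul_mem (mul_mem (pow_mem (mem_valr75 f _ _ _ m1 m2) _)
      (pow_mem (mem_valr75 g _ _ _ m1 m2) _)) (pow_mem (mem_valr75 k _ _ _ m1 m2) _)
  obtain ⟨hn0, htop, -⟩ := cyc_data x y hxy w hw rfl hmem
  exact hP.product M (four_lines _ _ w htop hn0 f g k a b c hf hg hk heq)

/-- branch curves of degree at most four, or of degree five with at most one line -/
theorem curve_free (hP : IsMotivic Ω P) {R M : Type} [Field R] [Field M] [Algebra Ω R]
    [Algebra Ω M] [Algebra R M] [IsScalarTower Ω R M] [FiniteDimensional R M] [IsGalois R M]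
    (x y w : M) (hR : ∀ r : R, algebraMap R M r ∈ (adjoin Ω {x, y} : IntermediateField Ω M))
    (hM : adjoin Ω {x, y, w} = ⊤) {r : ℕ} (d e : Fin r → ℕ) (f : Fin r → MvPolynomial (Fin 2) Ω)
    (hd : ∀ i, (f i).totalDegree ≤ d i) (h5 : ∑ i, d i ≤ 5)
    (hdvd : Module.finrank (adjoin Ω {x, y} : IntermediateField Ω M) M ∣ ∑ i, d i * e i)
    (hc : ∑ i, d i ≤ 4 ∨ (Finset.univ.filter fun i => d i = 1).card ≤ 1)
    (heq : w ^ Module.finrank (adjoin Ω {x, y} : IntermediateField Ω M) M =
      ∏ i, aeval ![x, y] (f i) ^ e i) : P M ∨ LstM Ω R M := by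
  obtain ⟨h1, h2, x', y', hx, hy, hB, hw⟩ := toB x y w hR hM
  have e1 : algebraMap (adjoin Ω {x, y} : IntermediateField Ω M) M x' = x := hx
  have e2 : algebraMap (adjoin Ω {x, y} : IntermediateField Ω M) M y' = y := hy
  rcases lst_or_lin (R := (adjoin Ω {x, y} : IntermediateField Ω M)) rfl hB hw d e f hd h5 hdvd
    hc (by rw [heq, e1, e2]) with h | h
  · right
    exact LstM.of_le (B := (adjoin Ω {x, y} : IntermediateField Ω M))
      (fun r => ⟨⟨_, hR r⟩, rfl⟩) (Lst.toM h)
  · exact Or.inl (lin_mem hP h)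

end Pool.Agent.Helper43.AC
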