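import Pool.Agent.Helper75.QC.Defs

/-! Project AC (MP_e93a6a_ag): classes of function fields of surfaces which are closed under the
untwisting of uniruled threefolds. Definitions. -/

set_option autoImplicit false

namespace Pool.Agent.Helper43.AC

open IntermediateField Pool.Agent.Helper75.QC

/-- The extension `K` of `Ω` is contained in a field which is generated by two fields of
transcendence degree at most one over `Ω`: the varieties with function field `K` are dominated by
products of two curves. -/
def IsProduct (Ω K : Type) [Field Ω] [Field K] [Algebra Ω K] : Prop :=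
  ∃ (E : Type) (_ : Field E) (_ : Algebra Ω E) (g : K →ₐ[Ω] E) (a b : E),
    ∀ k, g k ∈ adjoin Ω (Acl Ω {a} ∪ Acl Ω {b})

/-- `K` is a finite abelian extension of `F`. -/
def IsAbelianExt (F K : Type) [Field F] [Field K] [Algebra F K] : Prop :=
  FiniteDimensional F K ∧ IsGalois F K ∧ ∀ g h : K ≃ₐ[F] K, g * h = h * g

/-- The automorphisms of the extension `K` of `F` are a cyclic group. -/
def IsCyclicExt (F K : Type) [Field F] [Field K] [Algebra F K] : Prop := IsCyclic (K ≃ₐ[F] K)

/-- The decomposition of the motive of an abelian cover: a finite abelian extension `K` of `R` is in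
`P` if the cyclic extensions of `R` in `K` are in `P`. -/
def HasAbelian (Ω : Type) [Field Ω] (P : (K : Type) → [Field K] → [Algebra Ω K] → Prop) : Prop :=
  ∀ (K : Type) [Field K] [Algebra Ω K] (R : IntermediateField Ω K), IsAbelianExt R K →
    (∀ M : IntermediateField R K, IsCyclicExt R M → P M) → P K

/-- `K` is a cyclic extension of `Ω(x, y)` of degree `n`, generated by `w`. -/
def IsKummer (Ω : Type) {K : Type} [Field Ω] [Field K] [Algebra Ω K] (x y w : K) (n : ℕ) : Prop :=
  (n : Ω) ≠ 0 ∧ w ≠ 0 ∧ w ^ n ∈ adjoin Ω {x, y} ∧ adjoin Ω {x, y, w} = ⊤ ∧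
    Module.finrank (adjoin Ω {x, y}) K = n

/-- The threefold `v ^ α * (1 - v) ^ β = s ^ n * w ^ n`, with the function field `Ω(x, y, v, s)`, is
uniruled. It is the quotient by the group of the `n`-th roots of unity of the product of the surface
with function field `K = Ω(x, y, w)` and the curve `u ^ n = v ^ α * (1 - v) ^ β`, and `s = u / w`. -/
def IsUniTwist (Ω : Type) {K : Type} [Field Ω] [Field K] [Algebra Ω K] (x y w : K)
    (n α β : ℕ) : Prop :=
  ∀ (N : Type) [Field N] [Algebra Ω N] (g : K →ₐ[Ω] N) (v s : N),
    Transcendental g.fieldRange v → v ^ α * (1 - v) ^ β = s ^ n * g w ^ n →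
      Uniruled Ω (adjoin Ω {g x, g y, v, s} : IntermediateField Ω N) 3

/-- The exceptional quotients are in `P`: the extensions of `Ω(x, y)` in `K` which belong to the
characters of order `m`, where `m` divides `α`, `β` or `α + β`. -/
def HasExc (Ω : Type) [Field Ω] (P : (K : Type) → [Field K] → [Algebra Ω K] → Prop)
    {K : Type} [Field K] [Algebra Ω K] (x y w : K) (n α β : ℕ) : Prop :=
  ∀ m : ℕ, m ∣ n → (m ∣ α ∨ m ∣ β ∨ m ∣ α + β) →
    P (adjoin Ω {x, y, w ^ (n / m)} : IntermediateField Ω K)

/-- A class of extensions of `Ω` with the formal properties of the class of all extensions `K` for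
which the function fields contained in `K` belong to curves and surfaces with a motive in the thick
tensor category generated by the motives of curves. -/
structure IsMotivic (Ω : Type) [Field Ω] (P : (K : Type) → [Field K] → [Algebra Ω K] → Prop) :
    Prop where
  /-- subfields -/
  sub : ∀ (K K₀ : Type) [Field K] [Algebra Ω K] [Field K₀] [Algebra Ω K₀], (K₀ →ₐ[Ω] K) →
    P K → P K₀
  /-- products of curves -/
  product : ∀ (K : Type) [Field K] [Algebra Ω K], IsProduct Ω K → P K
  /-- the decomposition of the motive of an abelian cover -/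
  abelian : HasAbelian Ω P
  /-- untwisting -/
  twist : ∀ (K : Type) [Field K] [Algebra Ω K] (x y w : K) (n α β : ℕ), IsKummer Ω x y w n →
    (α.gcd β).Coprime n → HasExc Ω P x y w n α β → IsUniTwist Ω x y w n α β → P K

end Pool.Agent.Helper43.AC
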