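import Pool.Agent.Helper43.AC.Uni
import Pool.Agent.Helper35.TD.Red2
import Pool.Agent.Helper40.SD.Inp

/-! Project AC (MP_e93a6a_ag): cyclic covers of the plane branched along a cubic and a conic or along
three conics; the geometry is in `Pool.Agent.Helper40.SD`. -/

set_option autoImplicit false

namespace Pool.Agent.Helper43.AC

open IntermediateField Pool.Agent.Helper75.QC Pool.Agent.Helper75.TC Pool.Agent.Helper40.SD
  Pool.Agent.Helper35.TD

theorem exc_B {Ω : Type} [Field Ω] [IsAlgClosed Ω] (f g : MvPolynomial (Fin 2) Ω)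
    (hf : f.totalDegree ≤ 3) (hg : g.totalDegree ≤ 2) {n : ℕ} (hn : 0 < n) (hn' : (n : Ω) ≠ 0)
    {K : Type} [Field K] [Algebra Ω K] (x y w : K) (hw0 : w ≠ 0) (hg0 : val g x y ≠ 0)
    (hw : w ^ n * val g x y ^ 3 = val f x y ^ 2) (e : ℕ) (hen : e ∣ n)
    (he' : e ∣ 1 ∨ e ∣ 2 ∨ e ∣ 1 + 2) :
    Uniruled Ω (adjoin Ω {x, y, w ^ (n / e)} : IntermediateField Ω K) 2 := by
  have hf0 : val f x y ≠ 0 := by
    intro h
    rw [h] at hw
    have h1 : w ^ n * val g x y ^ 3 = 0 := by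
      rw [hw]
      ring
    exact mul_ne_zero (pow_ne_zero _ hw0) (pow_ne_zero _ hg0) h1
  have mx : x ∈ adjoin Ω {x, y} := subset_adjoin _ _ (by simp)
  have my : y ∈ adjoin Ω {x, y} := subset_adjoin _ _ (by simp)
  have hwF : w ^ n ∈ adjoin Ω {x, y} := by
    have h1 : w ^ n = val f x y ^ 2 / val g x y ^ 3 := by
      rw [eq_div_iff (pow_ne_zero _ hg0)]
      exact hw
    rw [h1]
    exact div_mem (pow_mem (val_mem f _ mx my) _) (pow_mem (val_mem g _ mx my) _)
  obtain ⟨m, hem⟩ := hen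
  have hm0 : 0 < m := by
    rcases Nat.eq_zero_or_pos m with h | h
    · rw [hem, h, mul_zero] at hn
      exact absurd hn (lt_irrefl 0)
    · exact h
  have he0 : 0 < e := by
    rcases Nat.eq_zero_or_pos e with h | h
    · rw [hem, h, zero_mul] at hn
      exact absurd hn (lt_irrefl 0)
    · exact h
  have hdiv : n / e = m := by
    rw [hem, Nat.mul_div_cancel_left _ he0]
  rw [hdiv]
  have he : e = 1 ∨ e = 2 ∨ e = 3 := by
    have h1 : e ≤ 3 := by
      rcases he' with h | h | h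
      · exact (Nat.le_of_dvd (by norm_num) h).trans (by norm_num)
      · exact (Nat.le_of_dvd (by norm_num) h).trans (by norm_num)
      · exact Nat.le_of_dvd (by norm_num) h
    omega
  have hcast : ∀ q : ℕ, e = q → (q : Ω) ≠ 0 := by
    rintro q rfl h
    apply hn'
    rw [hem]
    push_cast
    rw [h, zero_mul]
  have hW : (w ^ m) ^ e * val g x y ^ 3 = val f x y ^ 2 := by
    rw [← pow_mul, mul_comm m e, ← hem]
    exact hw
  have hWF : ∀ z : K, w ^ m ∈ adjoin Ω {x, y, z} →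
      Uniruled Ω (adjoin Ω {x, y, z} : IntermediateField Ω K) 2 →
      Uniruled Ω (adjoin Ω {x, y, w ^ m} : IntermediateField Ω K) 2 := by
    intro z hz hU
    refine uniruled_adjoin (AlgHom.id Ω K) _ _ ?_ hU
    rintro a (rfl | rfl | rfl)
    · exact subset_adjoin _ _ (by simp)
    · exact subset_adjoin _ _ (by simp)
    · exact hz
  obtain ⟨W, hWd⟩ : ∃ W, W = w ^ m := ⟨_, rfl⟩
  rw [← hWd] at hW hWF ⊢
  have hW0 : W ≠ 0 := by
    rw [hWd]
    exact pow_ne_zero _ hw0
  rcases he with rfl | rfl | rfl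
  · rw [hWd]
    rw [one_mul] at hem
    rw [← hem]
    exact uni_plane75 x y _ hwF
  · -- the double plane `W' ^ 2 = g`
    refine hWF (val f x y / (W * val g x y)) ?_ (uni_double75 (by exact_mod_cast hcast 2 rfl) g
      (hg.trans (by norm_num)) x y _ ?_)
    · have h1 : W = val f x y / (val f x y / (W * val g x y) * val g x y) := by
        field_simp
      have hx' : x ∈ adjoin Ω {x, y, val f x y / (W * val g x y)} :=
        subset_adjoin _ _ (by simp)
      have hy' : y ∈ adjoin Ω {x, y, val f x y / (W * val g x y)} :=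
        subset_adjoin _ _ (by simp)
      have hz' : val f x y / (W * val g x y) ∈ adjoin Ω {x, y, val f x y / (W * val g x y)} :=
        subset_adjoin _ _ (by simp)
      have h2 := div_mem (val_mem f _ hx' hy') (mul_mem hz' (val_mem g _ hx' hy'))
      rw [← h1] at h2
      exact h2
    · change _ = val g x y
      rw [div_pow, mul_pow, ← hW]
      field_simp
  · -- the cubic surface `z ^ 3 = f`
    refine hWF (val f x y / (W * val g x y)) ?_ (uni_root3 (by exact_mod_cast hcast 3 rfl) f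
      hf x y _ hf0 ?_)
    · have h1 : W = val f x y / (val f x y / (W * val g x y) * val g x y) := by
        field_simp
      have hx' : x ∈ adjoin Ω {x, y, val f x y / (W * val g x y)} :=
        subset_adjoin _ _ (by simp)
      have hy' : y ∈ adjoin Ω {x, y, val f x y / (W * val g x y)} :=
        subset_adjoin _ _ (by simp)
      have hz' : val f x y / (W * val g x y) ∈ adjoin Ω {x, y, val f x y / (W * val g x y)} :=
        subset_adjoin _ _ (by simp)
      have h2 := div_mem (val_mem f _ hx' hy') (mul_mem hz' (val_mem g _ hx' hy'))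
      rw [← h1] at h2
      exact h2
    · have h1 : (W * val g x y) ^ 3 = val f x y ^ 2 := by
        rw [← hW]
        ring
      rw [div_pow, h1]
      field_simp

theorem exc_N {Ω : Type} [Field Ω] [IsAlgClosed Ω] (f g h : MvPolynomial (Fin 2) Ω)
    (hf : f.totalDegree ≤ 2) (hg : g.totalDegree ≤ 2) (hh : h.totalDegree ≤ 2) {n a b c : ℕ}
    (hn : 0 < n) (habc : n ∣ a + b + c) {K : Type} [Field K] [Algebra Ω K] (x y w : K)
    (hf0 : val f x y ≠ 0) (hg0 : val g x y ≠ 0) (hh0 : val h x y ≠ 0)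
    (hw : w ^ n = val f x y ^ a * val g x y ^ b * val h x y ^ c) (e : ℕ) (hen : e ∣ n)
    (he' : e ∣ a ∨ e ∣ b ∨ e ∣ a + b) :
    Uniruled Ω (adjoin Ω {x, y, w ^ (n / e)} : IntermediateField Ω K) 2 := by
  have mx : x ∈ adjoin Ω {x, y} := subset_adjoin _ _ (by simp)
  have my : y ∈ adjoin Ω {x, y} := subset_adjoin _ _ (by simp)
  have mf : val f x y ∈ adjoin Ω {x, y} := val_mem f _ mx my
  have mg : val g x y ∈ adjoin Ω {x, y} := val_mem g _ mx my
  have mh : val h x y ∈ adjoin Ω {x, y} := val_mem h _ mx my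
  obtain ⟨m, hem⟩ := hen
  have he0 : 0 < e := by
    rcases Nat.eq_zero_or_pos e with h | h
    · rw [hem, h, zero_mul] at hn
      exact absurd hn (lt_irrefl 0)
    · exact h
  have hdiv : n / e = m := by
    rw [hem, Nat.mul_div_cancel_left _ he0]
  rw [hdiv]
  have hWe : (w ^ m) ^ e = val f x y ^ a * val g x y ^ b * val h x y ^ c := by
    rw [← pow_mul, mul_comm m e, ← hem, hw]
  have hdvd : e ∣ a + b + c := (Dvd.intro m hem.symm).trans habc
  rcases he' with he | he | he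
  · have h1 : e ∣ b + c := by
      rw [add_assoc] at hdvd
      exact (Nat.dvd_add_right he).1 hdvd
    obtain ⟨a', ha'⟩ := he
    obtain ⟨d', hd'⟩ := h1
    refine uni_conics_pow g h hg hh he0 b x y (w ^ m) (val f x y ^ a' * val h x y ^ d')
      (mul_mem (pow_mem mf _) (pow_mem mh _))
      (mul_ne_zero (pow_ne_zero _ hf0) (pow_ne_zero _ hh0)) hg0 hh0 ?_
    rw [hWe, mul_pow, ← pow_mul, ← pow_mul, mul_comm a' e, mul_comm d' e, ← ha', ← hd',
      pow_add]
    ring
  · have h1 : e ∣ a + c := by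
      have h3 : a + b + c = b + (a + c) := by ring
      rw [h3] at hdvd
      exact (Nat.dvd_add_right he).1 hdvd
    obtain ⟨a', ha'⟩ := he
    obtain ⟨d', hd'⟩ := h1
    refine uni_conics_pow f h hf hh he0 a x y (w ^ m) (val g x y ^ a' * val h x y ^ d')
      (mul_mem (pow_mem mg _) (pow_mem mh _))
      (mul_ne_zero (pow_ne_zero _ hg0) (pow_ne_zero _ hh0)) hf0 hh0 ?_
    rw [hWe, mul_pow, ← pow_mul, ← pow_mul, mul_comm a' e, mul_comm d' e, ← ha', ← hd',
      pow_add]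
    ring
  · have h1 : e ∣ c := (Nat.dvd_add_right he).1 hdvd
    obtain ⟨a', ha'⟩ := he
    obtain ⟨d', hd'⟩ := h1
    refine uni_conics_pow f g hf hg he0 a x y (w ^ m) (val g x y ^ a' * val h x y ^ d')
      (mul_mem (pow_mem mg _) (pow_mem mh _))
      (mul_ne_zero (pow_ne_zero _ hg0) (pow_ne_zero _ hh0)) hf0 hg0 ?_
    rw [hWe, mul_pow, ← pow_mul, ← pow_mul, mul_comm a' e, mul_comm d' e, ← ha', ← hd',
      pow_add]
    ring

variable {Ω : Type} [Field Ω] {P : (K : Type) → [Field K] → [Algebra Ω K] → Prop}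

theorem mem_B [IsAlgClosed Ω] (hP : IsMotivic Ω P) (f g : MvPolynomial (Fin 2) Ω)
    (hf : f.totalDegree ≤ 3) (hg : g.totalDegree ≤ 2) {n : ℕ} (hn : 0 < n) (hn' : (n : Ω) ≠ 0)
    {K : Type} [Field K] [Algebra Ω K] (x y w : K) (hK : adjoin Ω {x, y, w} = ⊤)
    (hdeg : Module.finrank (adjoin Ω {x, y}) K = n) (hw0 : w ≠ 0) (hg0 : val g x y ≠ 0)
    (hw : w ^ n * val g x y ^ 3 = val f x y ^ 2) : P K := by
  have mx : x ∈ adjoin Ω {x, y} := subset_adjoin _ _ (by simp)
  have my : y ∈ adjoin Ω {x, y} := subset_adjoin _ _ (by simp)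
  refine hP.twist K x y w n 1 2 ⟨hn', hw0, ?_, hK, hdeg⟩ (by simp) (fun e he he' => ?_) ?_
  · have h1 : w ^ n = val f x y ^ 2 / val g x y ^ 3 := by
      rw [eq_div_iff (pow_ne_zero _ hg0)]
      exact hw
    rw [h1]
    exact div_mem (pow_mem (val_mem f _ mx my) _) (pow_mem (val_mem g _ mx my) _)
  · exact hP.uniruled _ (exc_B f g hf hg hn hn' x y w hw0 hg0 hw e he he')
  · exact fun N _ _ ι v s hv hs => huni_B f g hf hg hn x y w hw0 hg0 hw N ι v s hv hs

theorem mem_N [IsAlgClosed Ω] (hP : IsMotivic Ω P) (f g h : MvPolynomial (Fin 2) Ω)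
    (hf : f.totalDegree ≤ 2) (hg : g.totalDegree ≤ 2) (hh : h.totalDegree ≤ 2) {n a b c : ℕ}
    (hn : 0 < n) (hn' : (n : Ω) ≠ 0) (habc : n ∣ a + b + c) {K : Type} [Field K] [Algebra Ω K]
    (x y w : K) (hK : adjoin Ω {x, y, w} = ⊤)
    (hdeg : Module.finrank (adjoin Ω {x, y}) K = n) (hw0 : w ≠ 0)
    (hf0 : val f x y ≠ 0) (hg0 : val g x y ≠ 0) (hh0 : val h x y ≠ 0)
    (hw : w ^ n = val f x y ^ a * val g x y ^ b * val h x y ^ c) : P K := by
  have mx : x ∈ adjoin Ω {x, y} := subset_adjoin _ _ (by simp)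
  have my : y ∈ adjoin Ω {x, y} := subset_adjoin _ _ (by simp)
  have mf : val f x y ∈ adjoin Ω {x, y} := val_mem f _ mx my
  have mg : val g x y ∈ adjoin Ω {x, y} := val_mem g _ mx my
  have mh : val h x y ∈ adjoin Ω {x, y} := val_mem h _ mx my
  have hco : (a.gcd b).Coprime n := by
    have hda : (a.gcd b).gcd n ∣ a := (Nat.gcd_dvd_left _ _).trans (Nat.gcd_dvd_left _ _)
    have hdb : (a.gcd b).gcd n ∣ b := (Nat.gcd_dvd_left _ _).trans (Nat.gcd_dvd_right _ _)
    have hdn : (a.gcd b).gcd n ∣ n := Nat.gcd_dvd_right _ _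
    have hdc : (a.gcd b).gcd n ∣ c :=
      (Nat.dvd_add_right (dvd_add hda hdb)).1 (hdn.trans habc)
    obtain ⟨a', ha'⟩ := hda
    obtain ⟨b', hb'⟩ := hdb
    obtain ⟨c', hc'⟩ := hdc
    refine coprime_of hn x y w hK hdeg hdn (val f x y ^ a' * val g x y ^ b' * val h x y ^ c')
      (mul_mem (mul_mem (pow_mem mf _) (pow_mem mg _)) (pow_mem mh _)) hw0 ?_
    rw [hw, mul_pow, mul_pow, ← pow_mul, ← pow_mul, ← pow_mul, mul_comm a', mul_comm b',
      mul_comm c', ← ha', ← hb', ← hc']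
  refine hP.twist K x y w n a b ⟨hn', hw0, ?_, hK, hdeg⟩ hco (fun e he he' => ?_) ?_
  · rw [hw]
    exact mul_mem (mul_mem (pow_mem mf _) (pow_mem mg _)) (pow_mem mh _)
  · exact hP.uniruled _ (exc_N f g h hf hg hh hn habc x y w hf0 hg0 hh0 hw e he he')
  · exact fun N _ _ ι v s hv hs => huni_N f g h hf hg hh hn habc x y w hf0 hg0 hh0 hw N ι v s hv hs

/-- **The table.** -/
theorem mem_table [IsAlgClosed Ω] (hP : IsMotivic Ω P) {n : ℕ} (hn : 0 < n) (hn' : (n : Ω) ≠ 0)
    {K : Type} [Field K] [Algebra Ω K] (x y w : K) (hK : adjoin Ω {x, y, w} = ⊤)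
    (hdeg : Module.finrank (adjoin Ω {x, y}) K = n) (f g h : MvPolynomial (Fin 2) Ω) (a b c : ℕ)
    (H : f.totalDegree ≤ 3 ∧ g.totalDegree ≤ 2 ∧ h = 1 ∧ n ∣ 3 * a + 2 * b ∨
      f.totalDegree ≤ 2 ∧ g.totalDegree ≤ 2 ∧ h.totalDegree ≤ 2 ∧ n ∣ a + b + c)
    (hw : w ^ n = val f x y ^ a * val g x y ^ b * val h x y ^ c) : P K := by
  have mx : x ∈ adjoin Ω {x, y} := subset_adjoin _ _ (by simp)
  have my : y ∈ adjoin Ω {x, y} := subset_adjoin _ _ (by simp)
  by_cases hw0 : w = 0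
  · refine hP.uniruled K (uniruled_of_gen hK (uni_plane75 x y w ?_))
    rw [hw0]
    exact zero_mem _
  have hne : val f x y ^ a * val g x y ^ b * val h x y ^ c ≠ 0 := by
    rw [← hw]
    exact pow_ne_zero _ hw0
  obtain ⟨f', hf1, -, hf0, hfa⟩ := repl' f x y a (left_ne_zero_of_mul (left_ne_zero_of_mul hne))
    {val f x y} rfl
  obtain ⟨g', hg1, -, hg0, hga⟩ := repl' g x y b
    (right_ne_zero_of_mul (left_ne_zero_of_mul hne)) {val g x y} rfl
  obtain ⟨h', hh1, -, hh0, hha⟩ := repl' h x y c (right_ne_zero_of_mul hne) {val h x y} rfl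
  rcases H with ⟨h1, h2, h3, h4⟩ | ⟨h1, h2, h3, h4⟩
  · have hw1 : w ^ n = val f' x y ^ a * val g' x y ^ b := by
      rw [hw, hfa, hga, h3, val_one', one_pow, mul_one]
    obtain ⟨w', h5, h6, e, k1, k2, h7⟩ := Pool.Agent.Helper48.TC.exists_red_field hK hn hdeg
      (val_mem f' _ mx my) (val_mem g' _ mx my) hf0 hg0 hw1 (d₁ := 3) (d₂ := 2) (by norm_num) (by
        rw [mul_comm a, mul_comm b]
        exact h4)
    refine mem_B hP f' g' (hf1.trans h1) (hg1.trans h2) hn hn' x y w' h6 hdeg ?_ hg0 h5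
    rw [h7]
    exact mul_ne_zero (zpow_ne_zero _ hw0) (mul_ne_zero (zpow_ne_zero _ hf0)
      (zpow_ne_zero _ hg0))
  · exact mem_N hP f' g' h' (hf1.trans h1) (hg1.trans h2) (hh1.trans h3) hn hn' h4 x y w hK hdeg
      hw0 hf0 hg0 hh0 (by rw [hfa, hga, hha, hw])

end Pool.Agent.Helper43.AC
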