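import Pool.Agent.Helper43.AC.Rows
import Pool.Agent.Helper43.AC.Table
import Pool.Agent.Helper43.AC.Lines
import Pool.Agent.Helper75.WC.RowData

/-! Project AC (MP_e93a6a_ag): the cyclic covers in the list; the proofs follow
`Pool.Agent.Helper35.WC.weighted` and `Pool.Agent.Helper35.WC.table`. -/

set_option autoImplicit false

namespace Pool.Agent.Helper43.AC

open IntermediateField Pool.Agent.Helper75.QC Pool.Agent.Helper35.WC Pool.Agent.Helper75.WC

variable {Ω : Type} [Field Ω] [IsAlgClosed Ω] {P : (K : Type) → [Field K] → [Algebra Ω K] → Prop}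

/-- **The list with weights.** -/
theorem weighted (hP : IsMotivic Ω P) {R M : Type} [Field R] [Field M] [Algebra Ω R]
    [Algebra Ω M] [Algebra R M] [IsScalarTower Ω R M] [FiniteDimensional R M] [IsGalois R M]
    (x y : R) (hR : adjoin Ω {x, y} = ⊤) (w : M) (hw : adjoin R {w} = ⊤)
    (hrow : IsWeighted Ω (Module.finrank R M) (algebraMap R M x) (algebraMap R M y) w) :
    P M ∨ RowData Ω R M := by
  obtain ⟨hwn, hsmall, hlarge⟩ := row_uni x y hR w hw rfl hrow
  obtain ⟨hn0, htop, hfin, hcast, hw0, hmem⟩ := cyc_data x y hR w hw rfl hwn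
  rcases Nat.lt_or_ge 2 (Module.finrank R M) with hn2 | hn2
  · right
    obtain ⟨α, β, hαβ, hα, hβ, hαβ', huni⟩ := hlarge hn2
    have hwr : w ^ Module.finrank R M ∈ (algebraMap R M).range := by
      have h1 : adjoin Ω {algebraMap R M x, algebraMap R M y} ≤
          (IsScalarTower.toAlgHom Ω R M).fieldRange := by
        rw [adjoin_le_iff]
        rintro s (rfl | rfl)
        · exact ⟨x, rfl⟩
        · exact ⟨y, rfl⟩
      obtain ⟨c, hc⟩ := h1 hwn
      exact ⟨c, hc⟩
    refine ⟨Module.finrank R M, α, β, x, y, w, hn0, hcast, hαβ, hα, hβ, hαβ', hR, hw, rfl,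
      hw0 (by omega), hwr, fun N _ _ g v s hv hs => huni N g v s ?_ ?_ hs⟩
    · rintro rfl
      exact hv isAlgebraic_zero
    · rintro rfl
      exact hv (isAlgebraic_algebraMap (1 : g.fieldRange))
  · exact Or.inl (hP.uniruled M (hsmall hn2))

/-- **The table.** -/
theorem table (hP : IsMotivic Ω P) {R M : Type} [Field R] [Field M] [Algebra Ω R]
    [Algebra Ω M] [Algebra R M] [IsScalarTower Ω R M] [FiniteDimensional R M] [IsGalois R M]
    (x y : R) (hR : adjoin Ω {x, y} = ⊤) (w : M) (hw : adjoin R {w} = ⊤)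
    (h : ∃ (a b c : ℕ) (f g h : MvPolynomial (Fin 2) Ω),
      (f.totalDegree ≤ 3 ∧ g.totalDegree ≤ 2 ∧ h = 1 ∧ Module.finrank R M ∣ 3 * a + 2 * b ∨
        f.totalDegree ≤ 2 ∧ g.totalDegree ≤ 2 ∧ h.totalDegree ≤ 2 ∧
          Module.finrank R M ∣ a + b + c ∨
        f.totalDegree ≤ 1 ∧ g.totalDegree ≤ 1 ∧ h.totalDegree ≤ 1) ∧
      w ^ Module.finrank R M = MvPolynomial.aeval ![algebraMap R M x, algebraMap R M y] f ^ a *
        MvPolynomial.aeval ![algebraMap R M x, algebraMap R M y] g ^ b *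
        MvPolynomial.aeval ![algebraMap R M x, algebraMap R M y] h ^ c) : P M := by
  obtain ⟨a, b, c, f, g, k, H, hwn⟩ := h
  have hval : ∀ (F : IntermediateField Ω M) (Q : MvPolynomial (Fin 2) Ω),
      algebraMap R M x ∈ F → algebraMap R M y ∈ F →
      MvPolynomial.aeval ![algebraMap R M x, algebraMap R M y] Q ∈ F := fun F Q h1 h2 =>
    mem_valr75 Q _ _ F h1 h2
  have hmem : w ^ Module.finrank R M ∈ adjoin Ω {algebraMap R M x, algebraMap R M y} := by
    have m1 : algebraMap R M x ∈ adjoin Ω {algebraMap R M x, algebraMap R M y} :=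
      subset_adjoin _ _ (by simp)
    have m2 : algebraMap R M y ∈ adjoin Ω {algebraMap R M x, algebraMap R M y} :=
      subset_adjoin _ _ (by simp)
    rw [hwn]
    exact mul_mem (mul_mem (pow_mem (hval _ _ m1 m2) _) (pow_mem (hval _ _ m1 m2) _))
      (pow_mem (hval _ _ m1 m2) _)
  obtain ⟨hn0, htop, hfin, hcast, -⟩ := cyc_data x y hR w hw rfl hmem
  rcases H with H | H | ⟨h1, h2, h3⟩
  · exact mem_table hP hn0 hcast _ _ w htop hfin f g k a b c (Or.inl H) hwn
  · exact mem_table hP hn0 hcast _ _ w htop hfin f g k a b c (Or.inr H) hwn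
  · exact hP.product M (four_lines _ _ w htop hn0 f g k a b c h1 h2 h3 hwn)

end Pool.Agent.Helper43.AC
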