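import Pool.Agent.Helper43.AC.Uni
import Pool.Agent.Helper35.WC.Listed

/-! Project AC (MP_e93a6a_ag): finite abelian extensions of the plane; the proof follows
`Pool.Agent.Helper35.WC.noTate_rows`. -/

set_option autoImplicit false

namespace Pool.Agent.Helper43.AC

open IntermediateField Pool.Agent.Helper75.QC Pool.Agent.Helper35.WC Pool.Agent.Helper75.WC

variable {Ω : Type} [Field Ω] {P : (K : Type) → [Field K] → [Algebra Ω K] → Prop}

/-- Finite abelian extensions: the cyclic quotients by induction on the degree. -/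
theorem mem_rows (hP : IsMotivic Ω P) {K : Type} [Field K] [Algebra Ω K]
    (R : IntermediateField Ω K) [FiniteDimensional R K] [IsGalois R K]
    (hab : ∀ g h : K ≃ₐ[R] K, g * h = h * g)
    (H : ∀ M : IntermediateField R K, IsCyclic (M ≃ₐ[R] M) → P M ∨ RowData Ω R M) : P K := by
  classical
  refine hP.abelian K R ⟨inferInstance, inferInstance, hab⟩ fun M hc => ?_
  change IsCyclic (M ≃ₐ[R] M) at hc
  obtain ⟨n, hn⟩ : ∃ n, n = Module.finrank R M := ⟨_, rfl⟩
  induction n using Nat.strong_induction_on generalizing M with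
  | _ n IH =>
  rcases H M hc with h | ⟨n', α, β, x, y, w, hn0, hnΩ, hαβ, hα, hβ, hαβ', hxy, hw, hdeg, hw0, hwn,
    huni⟩
  · exact h
  obtain rfl : n' = n := hdeg.symm.trans hn.symm
  have hGM : IsGalois R M := isGalois_of_comm hab M
  obtain ⟨x', hx'⟩ : ∃ x' : M, x' = algebraMap R M x := ⟨_, rfl⟩
  obtain ⟨y', hy'⟩ : ∃ y' : M, y' = algebraMap R M y := ⟨_, rfl⟩
  have hRle : ∀ r : R, algebraMap R M r ∈ (adjoin Ω {x', y'} : IntermediateField Ω M) := by
    intro r
    let i : R →ₐ[Ω] M :=
      { toRingHom := algebraMap R M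
        commutes' := fun c => rfl }
    have h1 : (adjoin Ω {x, y}).map i = adjoin Ω {x', y'} := by
      rw [adjoin_map, Set.image_pair, hx', hy']
      rfl
    rw [← h1, hxy]
    exact ⟨r, mem_top, rfl⟩
  have hK : adjoin Ω {x', y', w} = ⊤ := by
    have h2 : ∀ m : M, m ∈ (adjoin Ω {x', y', w} : IntermediateField Ω M) := by
      intro m
      have h3 : m ∈ (adjoin R {w} : IntermediateField R M) := by
        rw [hw]
        exact mem_top
      have h4 : (adjoin Ω {x', y'} : IntermediateField Ω M) ≤ adjoin Ω {x', y', w} :=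
        adjoin.mono Ω _ _ (by
          rintro a (rfl | rfl)
          · simp
          · simp)
      induction h3 using adjoin_induction with
      | mem a ha =>
        rw [Set.mem_singleton_iff] at ha
        rw [ha]
        exact subset_adjoin _ _ (by simp)
      | algebraMap r => exact h4 (hRle r)
      | add a b _ _ ha hb => exact add_mem ha hb
      | inv a _ ha => exact inv_mem ha
      | mul a b _ _ ha hb => exact mul_mem ha hb
    rw [eq_top_iff]
    exact fun m _ => h2 m
  have hle : ∀ a ∈ (adjoin Ω {x', y'} : IntermediateField Ω M), ∃ r : R, algebraMap R M r = a := by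
    intro a ha
    let i : R →ₐ[Ω] M :=
      { toRingHom := algebraMap R M
        commutes' := fun c => rfl }
    have h1 : (adjoin Ω {x, y}).map i = adjoin Ω {x', y'} := by
      rw [adjoin_map, Set.image_pair, hx', hy']
      rfl
    rw [← h1] at ha
    obtain ⟨r, -, hr⟩ := ha
    exact ⟨r, hr⟩
  have hdeg' : Module.finrank (adjoin Ω {x', y'} : IntermediateField Ω M) M = n' := by
    let i : R →+* (adjoin Ω {x', y'} : IntermediateField Ω M) :=
      (algebraMap R M).codRestrict (adjoin Ω {x', y'} : IntermediateField Ω M) hRle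
    let e : R ≃+* (adjoin Ω {x', y'} : IntermediateField Ω M) :=
      RingEquiv.ofBijective i ⟨i.injective, fun a => by
        obtain ⟨r, hr⟩ := hle a a.2
        exact ⟨r, Subtype.ext hr⟩⟩
    rw [← hdeg]
    exact (Algebra.finrank_eq_of_equiv_equiv e (RingEquiv.refl M) rfl).symm
  have hw' : w ^ n' ∈ (adjoin Ω {x', y'} : IntermediateField Ω M) := by
    obtain ⟨r, hr⟩ := hwn
    rw [← hr]
    exact hRle r
  refine hP.twist M x' y' w n' α β ⟨hnΩ, hw0, hw', hK, hdeg'⟩ hαβ (fun d hdn hd => ?_) ?_
  · obtain ⟨m, hm⟩ := hdn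
    have hne : d ≠ n' := by
      rintro rfl
      rcases hd with h | h | h
      · exact hα h
      · exact hβ h
      · exact hαβ' h
    have hd0 : 0 < d := Nat.pos_of_ne_zero (by
      rintro rfl
      rw [zero_mul] at hm
      omega)
    have hm0 : 0 < m := Nat.pos_of_ne_zero (by
      rintro rfl
      rw [mul_zero] at hm
      omega)
    have hdlt : d < n' := lt_of_le_of_ne (by
      rw [hm]
      exact Nat.le_mul_of_pos_right _ hm0) hne
    have hdiv : n' / d = m := by
      rw [hm, Nat.mul_div_cancel_left _ hd0]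
    rw [hdiv]
    obtain ⟨M', hM'⟩ : ∃ M' : IntermediateField R M, M' = adjoin R {w ^ m} := ⟨_, rfl⟩
    have hcM' : IsCyclic (M' ≃ₐ[R] M') := cyclic_sub hc M'
    let e : M' ≃ₐ[R] lift M' := liftAlgEquiv M'
    have hcL : IsCyclic (lift M' ≃ₐ[R] lift M') :=
      (MulEquiv.isCyclic (AlgEquiv.autCongr e)).1 hcM'
    have hfin : Module.finrank R (lift M') < n' := by
      rw [← e.toLinearEquiv.finrank_eq, hM']
      have h1 : Module.finrank R (adjoin R {w ^ m} : IntermediateField R M) =
          (minpoly R (w ^ m)).natDegree := adjoin.finrank (Algebra.IsIntegral.isIntegral _)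
      obtain ⟨r, hr⟩ := hwn
      have h2 : minpoly R (w ^ m) ∣ Polynomial.X ^ d - Polynomial.C r := by
        refine minpoly.dvd R _ ?_
        rw [map_sub, map_pow, Polynomial.aeval_X, Polynomial.aeval_C, hr, ← pow_mul, mul_comm m,
          ← hm, sub_self]
      have h3 := Polynomial.natDegree_le_of_dvd h2 (Polynomial.X_pow_sub_C_ne_zero hd0 r)
      rw [Polynomial.natDegree_X_pow_sub_C] at h3
      have h4 : Module.finrank R (adjoin R {w ^ m} : IntermediateField R M) ≤ d := h1.trans_le h3
      exact h4.trans_lt hdlt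
    have h1 := IH _ hfin (lift M') hcL rfl
    have hmem1 : ∀ a ∈ (adjoin Ω {x', y', w ^ m} : IntermediateField Ω M), a ∈ M' := by
      intro a ha
      have h2 : (adjoin Ω {x', y', w ^ m} : IntermediateField Ω M) ≤ M'.restrictScalars Ω := by
        rw [adjoin_le_iff]
        rintro b (rfl | rfl | rfl)
        · rw [hx']
          exact M'.algebraMap_mem x
        · rw [hy']
          exact M'.algebraMap_mem y
        · show w ^ m ∈ M'
          rw [hM']
          exact subset_adjoin _ _ rfl
      exact h2 ha
    let ι : (adjoin Ω {x', y', w ^ m} : IntermediateField Ω M) →ₐ[Ω] lift M' :=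
      { toFun := fun a => e ⟨a.1, hmem1 a.1 a.2⟩
        map_one' := rfl
        map_mul' := fun _ _ => rfl
        map_zero' := rfl
        map_add' := fun _ _ => rfl
        commutes' := fun _ => rfl }
    exact hP.sub (lift M') _ ι h1
  · intro N _ _ g v s hv hs
    rw [hx', hy']
    exact huni N g v s hv hs

end Pool.Agent.Helper43.AC
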