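import Pool.Agent.Helper43.AC.Defs
import Pool.Agent.Helper75.QC.Base

/-! Project AC (MP_e93a6a_ag): uniruled surfaces. -/

set_option autoImplicit false

namespace Pool.Agent.Helper43.AC

open IntermediateField Pool.Agent.Helper75.QC

/-- uniruled surfaces -/
theorem isProduct_of_uniruled {Ω K : Type} [Field Ω] [Field K] [Algebra Ω K]
    (h : Uniruled Ω K 2) : IsProduct Ω K := by
  obtain ⟨E, _, _, g, S, θ, hS, hg⟩ := h
  have hle : ∃ a : E, (S : Set E) ⊆ {a} := by
    rcases Nat.lt_succ_iff_lt_or_eq.1 hS with h | h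
    · have h1 : S = ∅ := Finset.card_eq_zero.1 (by omega)
      exact ⟨θ, by simp [h1]⟩
    · obtain ⟨a, ha⟩ := Finset.card_eq_one.1 h
      exact ⟨a, by simp [ha]⟩
  obtain ⟨a, ha⟩ := hle
  refine ⟨E, inferInstance, inferInstance, g, a, θ, fun k => ?_⟩
  refine adjoin.mono Ω _ _ (Set.union_subset_union ?_ (Set.singleton_subset_iff.2 ?_)) (hg k)
  · rw [← coe_AF, ← coe_AF]
    exact AF_mono ha
  · rw [← coe_AF]
    exact subset_AF _ rfl

/-- uniruled surfaces -/
theorem IsMotivic.uniruled {Ω : Type} [Field Ω]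
    {P : (K : Type) → [Field K] → [Algebra Ω K] → Prop} (hP : IsMotivic Ω P) (K : Type) [Field K]
    [Algebra Ω K] (h : Uniruled Ω K 2) : P K :=
  hP.product K (isProduct_of_uniruled h)

end Pool.Agent.Helper43.AC
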